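import Pool.Agent.Y976.SG.Stm

set_option autoImplicit false

namespace Pool.Agent.Y47.SG.PD

open Matrix
open Pool.Agent.Y976.SG
open Pool.Agent.H809R2.GI

theorem symm_of {k : ℕ} {S : Matrix (Fin k) (Fin k) ℝ} (hS : IsCorrelation S) (i j : Fin k) :
    S i j = S j i := by
  have h := hS.1.isHermitian.apply i j
  simpa using h.symm

theorem quad {k : ℕ} (S : Matrix (Fin k) (Fin k) ℝ) (x : Fin k → ℝ) :
    star x ⬝ᵥ (S *ᵥ x) = ∑ i, ∑ j, x i * x j * S i j := by
  simp only [dotProduct, mulVec, Pi.star_apply, star_trivial, Finset.mul_sum]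
  refine Finset.sum_congr rfl fun i _ => Finset.sum_congr rfl fun j _ => by ring

theorem ent : S_ENT := by
  intro k S hS i j
  by_cases hij : i = j
  · subst hij; rw [hS.2 i]; simp
  have h1 := hS.1.dotProduct_mulVec_nonneg (Pi.single i (1 : ℝ) + Pi.single j (1 : ℝ))
  have h2 := hS.1.dotProduct_mulVec_nonneg (Pi.single i (1 : ℝ) - Pi.single j (1 : ℝ))
  have hs := symm_of hS i j
  have hi := hS.2 i
  have hj := hS.2 j
  simp only [star_trivial, mulVec_add, mulVec_sub, mulVec_single_one, add_dotProduct,
    sub_dotProduct, dotProduct_add, dotProduct_sub, single_one_dotProduct, Matrix.col_apply,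
    hi, hj] at h1 h2
  rw [abs_le]
  constructor <;> linarith

theorem pow_psd {k : ℕ} {S : Matrix (Fin k) (Fin k) ℝ} (hS : S.PosSemidef) (n : ℕ) :
    (Matrix.of fun i j => S i j ^ n).PosSemidef := by
  induction n with
  | zero =>
    have h := Matrix.posSemidef_vecMulVec_self_star (fun _ : Fin k => (1 : ℝ))
    have e : (Matrix.of fun i j => S i j ^ 0) =
        vecMulVec (fun _ : Fin k => (1 : ℝ)) (star (fun _ : Fin k => (1 : ℝ))) := by
      ext i j
      simp [vecMulVec_apply]
    rw [e]
    exact h
  | succ n ih =>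
    have h := ih.hadamard hS
    have e : (Matrix.of fun i j => S i j ^ (n + 1)) = (Matrix.of fun i j => S i j ^ n) ⊙ S := by
      ext i j
      simp [hadamard_apply, pow_succ]
    rw [e]
    exact h

theorem main : S_PD := by
  intro k S hS a ha hsum f hf
  have hE := ent k S hS
  refine ⟨PosSemidef.of_dotProduct_mulVec_nonneg ?_ ?_, ?_⟩
  · refine Matrix.IsHermitian.ext fun i j => ?_
    simp only [of_apply, star_trivial]
    rw [symm_of hS j i]
  · intro x
    rw [quad]
    have hs : HasSum (fun n => ∑ i, ∑ j, x i * x j * (a n * S i j ^ n))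
        (∑ i, ∑ j, x i * x j * (Matrix.of fun i j => f (S i j)) i j) :=
      hasSum_sum fun i _ => hasSum_sum fun j _ => (hf (S i j) (hE i j)).mul_left _
    refine hs.nonneg fun n => ?_
    have hp := (pow_psd hS.1 n).dotProduct_mulVec_nonneg x
    rw [quad] at hp
    have : (∑ i, ∑ j, x i * x j * (a n * S i j ^ n)) =
        a n * ∑ i, ∑ j, x i * x j * (Matrix.of fun i j => S i j ^ n) i j := by
      rw [Finset.mul_sum]
      refine Finset.sum_congr rfl fun i _ => ?_
      rw [Finset.mul_sum]
      refine Finset.sum_congr rfl fun j _ => ?_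
      simp only [of_apply]; ring
    rw [this]
    exact mul_nonneg (ha n) hp
  · intro i
    simp only [of_apply, hS.2 i]
    have h1 := hf 1 (by simp)
    simp only [one_pow, mul_one] at h1
    exact h1.unique hsum

end Pool.Agent.Y47.SG.PD
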